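import Mathlib

/-!
# Finite-to-one homogeneity: definitions and statements

`X` is the union of the arc `[0,1]` and of infinitely many null sequences of segments (a star with
infinitely many arms) at the midpoints of the gaps of the Cantor set. It is homogeneous with respect
to finite-to-one surjections, and no homogeneous continuum maps onto it by a finite-to-one map.
-/

set_option autoImplicit false

open Set Topology

namespace Pool.Agent.Q172.FTO

/-- Finite-to-one continuous surjection. -/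
def IsFTO {X Y : Type*} [TopologicalSpace X] [TopologicalSpace Y] (f : X → Y) : Prop :=
  Continuous f ∧ Function.Surjective f ∧ ∀ y, (f ⁻¹' {y}).Finite

/-- `G m d`: `m` is the midpoint of a gap of the Cantor set and `d` is three eighths of the length of
the gap. -/
inductive G : ℝ → ℝ → Prop
  | base : G (1 / 2) (1 / 8)
  | left {m d : ℝ} : G m d → G (m / 3) (d / 3)
  | right {m d : ℝ} : G m d → G ((m + 2) / 3) (d / 3)

/-- The arm number `i` at `m`, without and with the point on the arc `[0,1]`: the points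
`(m, ρ, ρ 2^{-i})` with `0 ≤ ρ ≤ d 2^{-i}`. -/
def arm (m d : ℝ) (i : ℕ) : Set (ℝ × ℝ × ℝ) :=
  {p | p.1 = m ∧ 0 ≤ p.2.1 ∧ p.2.1 ≤ d * (1 / 2) ^ i ∧ p.2.2 = p.2.1 * (1 / 2) ^ i}

/-- The arc `[0,1]`. -/
def arc : Set (ℝ × ℝ × ℝ) := {p | 0 ≤ p.1 ∧ p.1 ≤ 1 ∧ p.2.1 = 0 ∧ p.2.2 = 0}

/-- The continuum. -/
def XS : Set (ℝ × ℝ × ℝ) := {p | p ∈ arc ∨ ∃ m d, G m d ∧ ∃ i : ℕ, p ∈ arm m d i}

/-- The retraction of `X` onto `[0,1]`. -/
def r (p : ℝ × ℝ × ℝ) : ℝ := p.1 + p.2.1

/-- JOB 1. Facts on the gaps. `(a)` by induction; `(b)` by induction on `G m d` and cases on `G m' d'`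
(base/left: `m + d < 1/3` for the left type, base/right: `1/2 + 1/8 < 2/3`); `(c)` by induction
similarly; `(d)` by induction (`left` and `right` are exchanged). -/
def S_G : Prop :=
  (∀ m d, G m d → 0 < d ∧ 0 < m ∧ m + d < 1 ∧ d ≤ 1 / 8) ∧
  (∀ m d m' d', G m d → G m' d' → m < m' → m + d < m') ∧
  (∀ m d d', G m d → G m d' → d = d') ∧
  (∀ m d, G m d → G (1 - m) d) ∧
  (∀ m d, G m d → 2 / 3 ≤ m → G (3 * m - 2) (3 * d)) ∧
  (∀ m d, G m d → m ≠ 1 / 2 → m < 1 / 3 ∨ 2 / 3 < m) ∧
  (∀ m d, G m d → m < 2 / 3 → m + d < 2 / 3)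

/-- JOB 2 (assume `S_G`). `XS` is compact, connected, and `r` is finite-to-one on `XS`.
Compactness: the arc is compact, the arms are compact, each arm meets the arc, and for every `ε > 0`
only finitely many arms have a point with `ε < ρ` (because `ρ ≤ d 2^{-i}` and only finitely many pairs
`(m, d)` with `G m d` have `ε < d`: by induction, `G m d` and `ε < d` leave finitely many pairs, e.g.
`d = 3^{-n} / 8` at level `n` and there are `2^n` pairs of level `n`); a limit point of `XS` with
`ρ > 0` is then a limit point of a finite union of arms, and a limit point with `ρ = 0` has `τ = 0`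
because `|τ| ≤ ρ` on `XS`. Connectedness: every point is joined with the arc by a segment
`(m, s ρ, s τ)`. Fibres of `r`: if `(m, ρ, τ)` is in an arm and `r = t` then `m ≤ t ≤ m + d`, so `m` is
determined by `t` (second part of `S_G`), `d` by `m`, `ρ = t - m`, and if `ρ > 0` then only finitely
many `i` satisfy `ρ ≤ d 2^{-i}`. -/
def S_X : Prop := S_G →
  IsCompact XS ∧ IsConnected XS ∧ (∀ p ∈ XS, 0 ≤ r p ∧ r p ≤ 1) ∧ ∀ t, {p ∈ XS | r p = t}.Finite

/-- JOB 3 (assume `S_G` and `S_X`). Gluing: a path `γ` in `XS`, defined on `[0, 2/3]`, ending at the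
point `0` and with finite fibres, gives the finite-to-one surjection `f` of `XS` with
`f p = γ (r p)` if `r p ≤ 2/3` and `f p = (3 p.1 - 2, 3 p.2.1, 3 p.2.2)` if `r p ≥ 2/3`. Note that
`p ∈ XS` and `2/3 ≤ r p` give `2/3 ≤ p.1` (last part of `S_G`), that `r p = 2/3` gives `p = (2/3,0,0)`
and that the second map is a bijection of `{p ∈ XS | 2/3 ≤ p.1}` onto `XS` (`G.right` and the fifth
part of `S_G`). -/
def S_glue : Prop := S_G → S_X →
  ∀ γ : ℝ → ℝ × ℝ × ℝ, ContinuousOn γ (Icc 0 (2 / 3)) → (∀ s ∈ Icc (0 : ℝ) (2 / 3), γ s ∈ XS) →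
    γ (2 / 3) = (0, 0, 0) → (∀ q, {s ∈ Icc (0 : ℝ) (2 / 3) | γ s = q}.Finite) →
    ∃ f : XS → XS, IsFTO f ∧ ∀ p : XS, r p ≤ 2 / 3 → (f p : ℝ × ℝ × ℝ) = γ (r p)

/-- JOB 4 (assume `S_G`, `S_X`, `S_glue`). Homogeneity. The relation `a ~> b` (there is `f` with
`IsFTO f` and `f a = b`) is transitive. `p ↦ (1 - p.1, p.2.1, p.2.2)` is a homeomorphism of `XS`.
`a ~> 0` if `a.1 ≤ 1/2`: then `r a < 2/3`; take `γ s = (|(s - r a) (s - 2/3)|, 0, 0)` in `S_glue`.
`0 ~> b`: let `b = (x, ρ, ρ κ)` with `κ = 2^{-i}` (`ρ = 0` on the arc); if `b = 0` take the identity,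
otherwise take `γ s = (x - max u 0, max (-u) 0, max (-u) 0 * κ)` with `u = -ρ + (x + ρ) * (3 / 2) * s`,
`u` runs from `-ρ` to `x` (`x + ρ > 0`), so `γ` is injective. -/
def S_hom : Prop := S_G → S_X → S_glue → ∀ a b : XS, ∃ f : XS → XS, IsFTO f ∧ f a = b

/-- `R y`: every neighbourhood of `y` contains three nondegenerate continua which contain `y` and meet
pairwise only in `y`. -/
def R {Y : Type*} [TopologicalSpace Y] (y : Y) : Prop :=
  ∀ U ∈ 𝓝 y, ∃ C : Fin 3 → Set Y, (∀ i, IsCompact (C i) ∧ IsPreconnected (C i) ∧ y ∈ C i ∧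
    (C i).Nontrivial ∧ C i ⊆ U) ∧ ∀ i j, i ≠ j → C i ∩ C j ⊆ {y}

/-- JOB 5. Let `Y` be a compact connected metric space, `F` a finite set, `B i` (`i : ℕ`) nonempty
pairwise disjoint open sets which miss `F` with `closure (B i) ⊆ B i ∪ F`. Then `R y` for some `y ∈ F`.
Proof: pick `b i ∈ B i`; boundary bumping (`Pool.Agent.Q172.JonesC.Tools` has the theorem `bump`, or
`Pool.Agent.Q172.RealCurve.Sier` `boundary_bumping`) gives: the component `M i` of `b i` in
`closure (B i)` meets `F`. `F` is finite, so three different indices `i` have a common point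
`y ∈ F ∩ M i`. Given `U`, take a closed ball `D` at `y` inside `U` with `D ∩ F = {y}` and let `C i` be
the component of `y` in `M i ∩ D`: nondegenerate by boundary bumping (or equal to `M i` if
`M i ⊆ D`). Two of them meet inside `closure (B i) ∩ closure (B j) ∩ D ⊆ F ∩ D = {y}`. -/
def S_R : Prop := ∀ (Y : Type) [MetricSpace Y] [CompactSpace Y] [ConnectedSpace Y] (F : Set Y)
  (B : ℕ → Set Y), F.Finite → (∀ i, IsOpen (B i) ∧ (B i).Nonempty ∧ Disjoint (B i) F ∧
    closure (B i) ⊆ B i ∪ F) → (∀ i j, i ≠ j → Disjoint (B i) (B j)) → F.Nonempty → ∃ y ∈ F, R y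

/-- JOB 6. If `O` is a nonempty open set of the compact metric space `Y`, all points of `O` have the
property `R`, and `P` is continuous, then `P` has an infinite fibre in `O`.
Proof. Suppose not. A nondegenerate connected `C ⊆ O` has an infinite preconnected image `P '' C`, so
`P '' C` contains a nondegenerate interval with end point `P z`, for each given `z ∈ C`.
Invariant `Inv n a b`: `a < b` and there are pairwise disjoint compact sets `V k ⊆ O`, `k : Fin (n + 1)`
with `Icc a b ⊆ P '' V k`. Start: `z ∈ O`, one continuum `C` of `R z` in `O`, and `V = C`. Step from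
`Inv n a b`: choose `v ∈ V (last n)` with `P v = (a + b) / 2 =: t`; by `R v` there are three continua
`C i ∋ v` inside `O`, missing the other (compact) `V k`; two of them (`i ≠ j`) have images containing
a common interval `[t, t + η]` or a common interval `[t - η, t]`, inside `[a, b]`; let `[a', b']` be the
half of this interval away from `t`, and replace `V (last n)` by the two disjoint compact sets
`C i ∩ P ⁻¹' [a', b']`, `C j ∩ P ⁻¹' [a', b']` (disjoint because `C i ∩ C j ⊆ {v}` and `P v = t`). So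
there are nested intervals `[a n, b n]` with `Inv n`, and a common point `t`; its fibre in `O` has at
least `n + 1` points for all `n`. -/
def S_inf : Prop := ∀ (Y : Type) [MetricSpace Y] [CompactSpace Y] (O : Set Y) (P : Y → ℝ),
  IsOpen O → O.Nonempty → (∀ z ∈ O, R z) → Continuous P → ∃ t, {y ∈ O | P y = t}.Infinite

/-- JOB 7 (assume `S_G`, `S_X`, `S_R`, `S_inf`). No homogeneous continuum `Y` has a finite-to-one map
`q` onto `XS`. Proof: let `c = (1/2, 0, 0)`, `F = q ⁻¹' {c}` (finite and nonempty) and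
`B i = q ⁻¹' A i` with `A i = {p ∈ arm (1/2) (1/8) i | 0 < p.2.1}`; `A i` is open in `XS` (a point
`p ∈ XS` with `|p.1 - 1/2| < 1/6`, `0 < p.2.1` has `p.1 = 1/2` by the sixth part of `S_G`, and is in
exactly one arm, determined by `τ/ρ = 2^{-i}`) and `A i ∪ {c}` is closed. `S_R` gives a point with `R`,
and homogeneity gives `R z` for all `z`. Let `O = {y | 1/3 < (q y).1 < 1/2}` and `P y = (q y).1`; a point
of `XS` with `1/3 < p.1 < 1/2` is on the arc, so `P` has finite fibres in `O` because `q` is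
finite-to-one. This contradicts `S_inf`. -/
def S_neg : Prop := S_G → S_X → S_R → S_inf →
  ∀ (Y : Type) [MetricSpace Y] [CompactSpace Y] [ConnectedSpace Y],
    (∀ a b : Y, ∃ h : Y ≃ₜ Y, h a = b) → ¬ ∃ q : Y → XS, IsFTO q

end Pool.Agent.Q172.FTO
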